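import Pool.Agent.H.MP_fbbc72_al.h41.Core17

/-! Relations `∑ c_ij a^i x b^j = 0` for two transcendental elements `a, b`. -/

namespace Pool.Agent.BQG

open Module Polynomial MulOpposite

variable {k D : Type*} [Field k] [DivisionRing D] [Algebra k D]

/-- a nontrivial relation `∑ c_ij a^i x b^j = 0` -/
def PairRel (k : Type*) {D : Type*} [Field k] [DivisionRing D] [Algebra k D] (a b x : D) : Prop :=
  ∃ (N : ℕ) (c : Fin N → Fin N → k), c ≠ 0 ∧
    ∑ i, ∑ j, c i j • (a ^ (i : ℕ) * x * b ^ (j : ℕ)) = 0

theorem PairRel.op {a b x : D} (h : PairRel k a b x) : PairRel k (op b) (op a) (op x) := by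
  obtain ⟨N, c, hc, hrel⟩ := h
  refine ⟨N, fun i j => c j i, ?_, ?_⟩
  · intro h0
    apply hc
    funext i j
    exact congrFun (congrFun h0 j) i
  · rw [Finset.sum_comm]
    have h1 := congrArg (MulOpposite.op : D → Dᵐᵒᵖ) hrel
    rw [op_zero] at h1
    rw [← h1, Finset.op_sum]
    apply Finset.sum_congr rfl
    intro i _
    rw [Finset.op_sum]
    apply Finset.sum_congr rfl
    intro j _
    rw [op_smul, op_mul, op_mul, op_pow, op_pow, mul_assoc]

theorem dep_of_pairRel {a b x : D} (ha : Transcendental k a) (h : PairRel k a b x) :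
    ∃ N : ℕ, ¬ LinearIndependent (gen k a) (fun j : Fin N => x * b ^ (j : ℕ)) := by
  classical
  obtain ⟨N, c, hc, hrel⟩ := h
  refine ⟨N, ?_⟩
  let p : Fin N → k[X] := fun j => ∑ i : Fin N, monomial (i : ℕ) (c i j)
  have hp : ∃ j, p j ≠ 0 := by
    by_contra hcon
    push Not at hcon
    apply hc
    funext i j
    have h1 : (p j).coeff i = c i j := by
      simp only [p, finsetSum_coeff, coeff_monomial]
      rw [Finset.sum_eq_single i]
      · simp
      · intro b _ hb
        have : (b : ℕ) ≠ (i : ℕ) := fun h => hb (Fin.ext h)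
        simp [this]
      · simp
    rw [hcon j] at h1
    simpa using h1.symm
  obtain ⟨j₀, hj₀⟩ := hp
  rw [Fintype.not_linearIndependent_iff]
  refine ⟨fun j => ⟨aeval a (p j), aeval_mem_gen a _⟩, ?_, j₀, ?_⟩
  · rw [← hrel, Finset.sum_comm]
    apply Finset.sum_congr rfl
    intro j _
    change aeval a (p j) * (x * b ^ (j : ℕ)) = _
    simp only [p, map_sum, Finset.sum_mul, aeval_monomial]
    apply Finset.sum_congr rfl
    intro i _
    rw [Algebra.smul_def]
    simp only [mul_assoc]
  · intro h0
    exact aeval_ne_zero ha hj₀ (congrArg Subtype.val h0)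

/-- powers of an element with a dependence span a stable space -/
theorem stab_of_dep {a b x : D} {N : ℕ}
    (h : ¬ LinearIndependent (gen k a) (fun j : Fin N => x * b ^ (j : ℕ))) :
    ∃ d : ℕ, x ∈ Submodule.span (gen k a) (Set.range (fun j : Fin d => x * b ^ (j : ℕ))) ∧
      ∀ w ∈ Submodule.span (gen k a) (Set.range (fun j : Fin d => x * b ^ (j : ℕ))),
        ∀ f ∈ gen k b,
          w * f ∈ Submodule.span (gen k a) (Set.range (fun j : Fin d => x * b ^ (j : ℕ))) := by
  classical
  have h1 : ∃ d, x * b ^ d ∈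
      Submodule.span (gen k a) (Set.range (fun j : Fin d => x * b ^ (j : ℕ))) := by
    by_contra hcon
    push Not at hcon
    apply h
    have key : ∀ n, LinearIndependent (gen k a) (fun j : Fin n => x * b ^ (j : ℕ)) := by
      intro n
      induction n with
      | zero => exact linearIndependent_empty_type
      | succ n ih =>
        rw [linearIndependent_finSucc']
        refine ⟨ih, ?_⟩
        have h2 := hcon n
        exact h2
    exact key N
  obtain ⟨d, hd⟩ := h1
  let W := Submodule.span (gen k a) (Set.range (fun j : Fin d => x * b ^ (j : ℕ)))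
  have hWf : Module.Finite (gen k a) W :=
    Module.Finite.span_of_finite _ (Set.finite_range _)
  have hb : b ∈ rstab W hWf := by
    intro w hw
    refine Submodule.span_induction (p := fun w _ => w * b ∈ W) ?_ ?_ ?_ ?_ hw
    · rintro _ ⟨j, rfl⟩
      dsimp only
      rw [mul_assoc, ← pow_succ]
      rcases Nat.lt_or_ge ((j : ℕ) + 1) d with h1 | h1
      · exact Submodule.subset_span ⟨⟨(j : ℕ) + 1, h1⟩, rfl⟩
      · have : (j : ℕ) + 1 = d := by have := j.2; omega
        rw [this]
        exact hd
    · rw [zero_mul]; exact W.zero_mem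
    · intro x y _ _ hx hy; rw [add_mul]; exact W.add_mem hx hy
    · intro c x _ hx
      rw [smul_mul_assoc]; exact W.smul_mem c hx
  have hk : ∀ c : k, algebraMap k D c ∈ rstab W hWf := by
    intro c w hw
    rw [← Algebra.commutes]
    exact W.smul_mem (⟨_, algebraMap_mem_gen a c⟩ : gen k a) hw
  have hle : gen k b ≤ rstab W hWf := gen_le hb hk
  refine ⟨d, ?_, fun w hw f hf => hle hf w hw⟩
  by_cases h0 : d = 0
  · subst h0
    have h2 : Set.range (fun j : Fin 0 => x * b ^ (j : ℕ)) = ∅ := Set.range_eq_empty _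
    rw [h2, Submodule.span_empty, pow_zero, mul_one, Submodule.mem_bot] at hd
    rw [hd]; exact Submodule.zero_mem _
  · exact Submodule.subset_span ⟨⟨0, Nat.pos_of_ne_zero h0⟩, by
      change x * b ^ 0 = x
      rw [pow_zero, mul_one]⟩

/-- a dependence gives a polynomial relation -/
theorem Phi_of_dep {a y : D} (ha : Transcendental k a) {N : ℕ}
    (h : ¬ LinearIndependent (gen k a) (fun j : Fin N => y * a ^ (j : ℕ))) :
    ∃ P : k[X][X], P ≠ 0 ∧ Phi a P y = 0 := by
  classical
  rw [Fintype.not_linearIndependent_iff] at h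
  obtain ⟨g, hsum, j₀, hj₀⟩ := h
  obtain ⟨p, hp, hq⟩ := gen_frac_fin ha N (fun j => (g j : D)) (fun j => (g j).2)
  choose q hq using hq
  have hgj : (g j₀ : D) ≠ 0 := fun h0 => hj₀ (Subtype.ext h0)
  refine ⟨∑ j : Fin N, monomial (j : ℕ) (q j), ?_, ?_⟩
  · intro h0
    have h1 : (∑ j : Fin N, monomial (j : ℕ) (q j)).coeff j₀ = q j₀ := by
      rw [finsetSum_coeff, Finset.sum_eq_single j₀]
      · rw [coeff_monomial, if_pos rfl]
      · intro b _ hb
        rw [coeff_monomial, if_neg]
        intro h2
        exact hb (Fin.ext h2)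
      · intro h2
        exact absurd (Finset.mem_univ _) h2
    rw [h0, coeff_zero] at h1
    have h2 := hq j₀
    rw [← h1, map_zero] at h2
    rcases mul_eq_zero.mp h2 with h3 | h3
    · exact aeval_ne_zero ha hp h3
    · exact hgj h3
  · have h1 : Phi a (∑ j : Fin N, monomial (j : ℕ) (q j)) y =
        aeval a p * ∑ j, g j • (y * a ^ (j : ℕ)) := by
      rw [map_sum, LinearMap.sum_apply, Finset.mul_sum]
      apply Finset.sum_congr rfl
      intro j _
      rw [Phi_monomial, ← hq j]
      change aeval a p * (g j : D) * y * a ^ (j : ℕ) = aeval a p * ((g j : D) * (y * a ^ (j : ℕ)))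
      simp only [mul_assoc]
    rw [h1, hsum, mul_zero]

end Pool.Agent.BQG
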