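import Pool.Agent.H.MP_fbbc72_al.hp.P1

/-! If `1` and all `b^j v` satisfy `(a, b)`-relations then `v` satisfies a `(b, b)`-relation. -/

namespace Pool.Agent.BQG

open Module Polynomial MulOpposite

variable {k D : Type*} [Field k] [DivisionRing D] [Algebra k D]

theorem self_rel_of_pair {a b v : D} (ha : Transcendental k a) (hb : Transcendental k b)
    (h1 : PairRel k a b 1) (hv : ∀ j : ℕ, PairRel k a b (b ^ j * v)) :
    ∃ P : k[X][X], P ≠ 0 ∧ Phi b P v = 0 := by
  classical
  obtain ⟨N, hN⟩ := dep_of_pairRel ha h1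
  obtain ⟨d, h1W, hst⟩ := stab_of_dep hN
  have h2 : ∀ j : ℕ, ∃ d : ℕ, op (b ^ j * v) ∈ Submodule.span (gen k (op b))
      (Set.range (fun i : Fin d => op (b ^ j * v) * (op a) ^ (i : ℕ))) ∧
      ∀ w ∈ Submodule.span (gen k (op b))
        (Set.range (fun i : Fin d => op (b ^ j * v) * (op a) ^ (i : ℕ))),
        ∀ f ∈ gen k (op a), w * f ∈ Submodule.span (gen k (op b))
          (Set.range (fun i : Fin d => op (b ^ j * v) * (op a) ^ (i : ℕ))) := by
    intro j
    obtain ⟨N, hN⟩ := dep_of_pairRel (transc_op hb) (hv j).op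
    exact stab_of_dep hN
  choose e he1 he2 using h2
  let W' : Fin d → Submodule (gen k (op b)) Dᵐᵒᵖ := fun j =>
    Submodule.span (gen k (op b))
      (Set.range (fun i : Fin (e j) => op (b ^ (j : ℕ) * v) * (op a) ^ (i : ℕ)))
  have hW'f : ∀ j, Module.Finite (gen k (op b)) (W' j) := fun j =>
    Module.Finite.span_of_finite _ (Set.finite_range _)
  let U : Submodule (gen k (op b)) Dᵐᵒᵖ := ⨆ j, W' j
  have hUf : Module.Finite (gen k (op b)) U := Submodule.finite_iSup _
  have hUst : ∀ w ∈ U, ∀ f ∈ gen k (op a), w * f ∈ U := by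
    intro w hw f hf
    refine Submodule.iSup_induction W' (motive := fun w => w * f ∈ U) hw ?_ ?_ ?_
    · intro j x hx
      exact Submodule.mem_iSup_of_mem j (he2 j x hx f hf)
    · rw [zero_mul]; exact U.zero_mem
    · intro x y hx hy
      rw [add_mul]; exact U.add_mem hx hy
  have hkey : ∀ g ∈ Submodule.span (gen k a) (Set.range (fun j : Fin d => 1 * b ^ (j : ℕ))),
      op (g * v) ∈ U := by
    intro g hg
    refine Submodule.span_induction (p := fun g _ => op (g * v) ∈ U) ?_ ?_ ?_ ?_ hg
    · rintro _ ⟨j, rfl⟩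
      dsimp only
      rw [one_mul]
      exact Submodule.mem_iSup_of_mem j (he1 j)
    · rw [zero_mul, op_zero]; exact U.zero_mem
    · intro x y _ _ hx hy
      rw [add_mul, op_add]; exact U.add_mem hx hy
    · intro c x _ hx
      have h3 : op ((c • x) * v) = op (x * v) * op (c : D) := by
        rw [← op_mul]
        change op ((c : D) * x * v) = _
        rw [mul_assoc]
      rw [h3]
      exact hUst _ hx _ (op_mem_gen c.2)
  have hpow : ∀ i : ℕ, op v * (op b) ^ i ∈ U := by
    intro i
    have h3 := hst 1 h1W _ (pow_mem_gen b i)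
    rw [one_mul] at h3
    have h4 := hkey _ h3
    rw [op_mul, op_pow] at h4
    exact h4
  have hdep : ¬ LinearIndependent (gen k (op b))
      (fun i : Fin (finrank (gen k (op b)) U + 1) => op v * (op b) ^ (i : ℕ)) := by
    intro hli
    have h5 : LinearIndependent (gen k (op b))
        (fun i : Fin (finrank (gen k (op b)) U + 1) => (⟨op v * (op b) ^ (i : ℕ), hpow i⟩ : U)) := by
      apply LinearIndependent.of_comp U.subtype
      exact hli
    have h6 := h5.fintype_card_le_finrank
    rw [Fintype.card_fin] at h6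
    omega
  obtain ⟨P', hP', hPhi⟩ := Phi_of_dep (transc_op hb) hdep
  refine ⟨Bivariate.swap.symm P', ?_, ?_⟩
  · intro h0
    apply hP'
    have := congrArg Bivariate.swap h0
    simpa using this
  · have h3 := Phi_op b (Bivariate.swap.symm P') v
    have h4 : Bivariate.swap (Bivariate.swap.symm P') = P' := AlgEquiv.apply_symm_apply _ _
    rw [h4, hPhi] at h3
    exact (op_injective (by rw [op_zero, h3])).symm

/-- THEOREM. `k` finite, `D` of quadratic growth, `a ∈ D` and `b ∈ R` transcendental. If `1` and all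
`b^j v`, `v ∈ V`, satisfy nontrivial relations `∑ c_ij a^i x b^j = 0` then `D` is finite over its
centre. -/
theorem Quad.pairTorsion [Finite k] {V : Submodule k D} {C₀ : ℕ} (h : Quad V C₀) {a b : D}
    (ha : Transcendental k a) (hb : Transcendental k b) {e : ℕ} (hbe : b ∈ V ^ e)
    (h1 : PairRel k a b 1) (hv : ∀ v ∈ V, ∀ j : ℕ, PairRel k a b (b ^ j * v)) : FinCent D := by
  classical
  by_contra hD
  have hS : ∀ v ∈ V, v ∈ Subfield.closure ((gen k b : Set D) ∪
      {y | (∃ n, y ∈ V ^ n) ∧ ∃ P : k[X][X], P ≠ 0 ∧ Phi b P y = 0}) := by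
    intro v hvV
    apply Subfield.subset_closure
    right
    exact ⟨⟨1, by rwa [pow_one]⟩, self_rel_of_pair ha hb h1 (hv v hvV)⟩
  set L := Subfield.closure ((gen k b : Set D) ∪
      {y | (∃ n, y ∈ V ^ n) ∧ ∃ P : k[X][X], P ≠ 0 ∧ Phi b P y = 0}) with hL
  have hkL : ∀ c : k, algebraMap k D c ∈ L := fun c =>
    Subfield.subset_closure (Or.inl (algebraMap_mem_gen b c))
  have hVn : ∀ n, ∀ x ∈ V ^ n, x ∈ L := by
    intro n
    induction n with
    | zero =>
      intro x hx
      rw [pow_zero, Submodule.mem_one] at hx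
      obtain ⟨c, rfl⟩ := hx
      exact hkL c
    | succ n ih =>
      intro x hx
      rw [pow_succ] at hx
      refine Submodule.mul_induction_on hx ?_ ?_
      · intro y hy z hz
        exact L.mul_mem (ih y hy) (hS z hz)
      · intro y z hy hz
        exact L.add_mem hy hz
  have hall : ∀ d : D, d ∈ L := by
    intro d
    obtain ⟨n, u, hu, w, hw, -, rfl⟩ := h.frac d
    exact L.mul_mem (hVn n u hu) (L.inv_mem (hVn n w hw))
  have hfin : Module.Finite (gen k b) D := by
    apply finite_of_bound (C₀ * (e + 1) ^ 2)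
    intro N x hx
    exact h.allTorsion hD hb hbe N x hx (fun i => hall _)
  exact hD (finCent_of_comm (gen k b) (gen_commutative b) hfin)

end Pool.Agent.BQG
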