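import Pool.Agent.H.MP_fbbc72_al.hp.P2

/-! Linear independence of `a^i r b^j`. -/

namespace Pool.Agent.BQG

open Module Polynomial MulOpposite

variable {k D : Type*} [Field k] [DivisionRing D] [Algebra k D]

theorem pairRel_of_dep {a b x : D}
    (h : ¬ LinearIndependent k (fun p : ℕ × ℕ => a ^ p.1 * x * b ^ p.2)) : PairRel k a b x := by
  classical
  rw [linearIndependent_iff'] at h
  push Not at h
  obtain ⟨s, g, hsum, p₀, hp₀, hg⟩ := h
  let N := s.sup (fun p => p.1 + p.2) + 1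
  have hN : ∀ p ∈ s, p.1 < N ∧ p.2 < N := by
    intro p hp
    have h1 : p.1 + p.2 ≤ s.sup (fun p => p.1 + p.2) :=
      Finset.le_sup (f := fun p : ℕ × ℕ => p.1 + p.2) hp
    constructor <;> (simp only [N]; omega)
  let c : Fin N → Fin N → k := fun i j => if ((i : ℕ), (j : ℕ)) ∈ s then g ((i : ℕ), (j : ℕ)) else 0
  refine ⟨N, c, ?_, ?_⟩
  · intro h0
    have h1 := congrFun (congrFun h0 ⟨p₀.1, (hN p₀ hp₀).1⟩) ⟨p₀.2, (hN p₀ hp₀).2⟩
    simp only [c, Pi.zero_apply] at h1
    rw [if_pos (by exact hp₀)] at h1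
    exact hg h1
  · rw [← hsum, ← Finset.sum_product']
    symm
    rw [Finset.univ_product_univ]
    let emb : Fin N × Fin N → ℕ × ℕ := fun q => ((q.1 : ℕ), (q.2 : ℕ))
    have hinj : Function.Injective emb := by
      rintro ⟨i, j⟩ ⟨i', j'⟩ h
      simp only [emb, Prod.mk.injEq] at h
      exact Prod.ext (Fin.ext h.1) (Fin.ext h.2)
    have h1 : ∑ q : Fin N × Fin N, c q.1 q.2 • (a ^ (q.1 : ℕ) * x * b ^ (q.2 : ℕ)) =
        ∑ p ∈ Finset.univ.image emb, (if p ∈ s then g p else 0) • (a ^ p.1 * x * b ^ p.2) := by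
      rw [Finset.sum_image (fun p _ q _ h => hinj h)]
    rw [h1]
    apply Finset.sum_subset_zero_on_sdiff
    · intro p hp
      rw [Finset.mem_image]
      exact ⟨(⟨p.1, (hN p hp).1⟩, ⟨p.2, (hN p hp).2⟩), Finset.mem_univ _, rfl⟩
    · intro p hp
      rw [Finset.mem_sdiff] at hp
      rw [if_neg hp.2, zero_smul]
    · intro p hp
      rw [if_pos hp]

/-- conjugation -/
theorem PairRel.conj {a b u x : D} (hu : u ≠ 0) (h : PairRel k a b (u * x)) :
    PairRel k (u⁻¹ * a * u) b x := by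
  obtain ⟨N, c, hc, hrel⟩ := h
  refine ⟨N, c, hc, ?_⟩
  have h1 : ∀ i : ℕ, (u⁻¹ * a * u) ^ i = u⁻¹ * a ^ i * u := by
    intro i
    induction i with
    | zero => simp [hu]
    | succ i ih =>
      rw [pow_succ, ih, pow_succ]
      have : u * (u⁻¹ * a * u) = a * u := by
        rw [mul_assoc, mul_inv_cancel_left₀ hu]
      rw [mul_assoc (u⁻¹ * a ^ i) u, this]
      simp only [mul_assoc]
  have h2 : ∑ i, ∑ j, c i j • ((u⁻¹ * a * u) ^ (i : ℕ) * x * b ^ (j : ℕ)) =
      u⁻¹ * ∑ i, ∑ j, c i j • (a ^ (i : ℕ) * (u * x) * b ^ (j : ℕ)) := by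
    rw [Finset.mul_sum]
    apply Finset.sum_congr rfl
    intro i _
    rw [Finset.mul_sum]
    apply Finset.sum_congr rfl
    intro j _
    rw [h1, mul_smul_comm]
    simp only [mul_assoc]
  rw [h2, hrel, mul_zero]

theorem transc_conj {a u : D} (ha : Transcendental k a) (hu : u ≠ 0) :
    Transcendental k (u⁻¹ * a * u) := by
  rintro ⟨p, hp, h0⟩
  apply ha
  refine ⟨p, hp, ?_⟩
  have h1 : ∀ q : k[X], aeval (u⁻¹ * a * u) q = u⁻¹ * aeval a q * u := by
    intro q
    induction q using Polynomial.induction_on' with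
    | add q r hq hr => rw [map_add, map_add, hq, hr, mul_add, add_mul]
    | monomial n c =>
      rw [aeval_monomial, aeval_monomial]
      have h2 : ∀ i : ℕ, (u⁻¹ * a * u) ^ i = u⁻¹ * a ^ i * u := by
        intro i
        induction i with
        | zero => simp [hu]
        | succ i ih =>
          rw [pow_succ, ih, pow_succ]
          have : u * (u⁻¹ * a * u) = a * u := by
            rw [mul_assoc, mul_inv_cancel_left₀ hu]
          rw [mul_assoc (u⁻¹ * a ^ i) u, this]
          simp only [mul_assoc]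
      rw [h2, ← mul_assoc, ← mul_assoc, ← mul_assoc]
      rw [Algebra.commutes c u⁻¹]
  rw [h1 p] at h0
  have h3 : u * (u⁻¹ * aeval a p * u) * u⁻¹ = aeval a p := by
    rw [mul_assoc u⁻¹, mul_inv_cancel_left₀ hu, mul_assoc, mul_inv_cancel₀ hu, mul_one]
  rw [← h3, h0, mul_zero, zero_mul]

/-- THEOREM. `k` finite, `D` of quadratic growth, not finite over its centre; `a, b` transcendental,
`b ∈ R`, `u ≠ 0`. Some `r ∈ R` is such that the elements `a^i u r b^j` are independent over `k`. -/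
theorem Quad.pairFree [Finite k] {V : Submodule k D} {C₀ : ℕ} (h : Quad V C₀) (hD : ¬ FinCent D)
    {a b u : D} (ha : Transcendental k a) (hb : Transcendental k b) (hu : u ≠ 0) {e : ℕ}
    (hbe : b ∈ V ^ e) : ∃ (n : ℕ) (r : D), r ∈ V ^ n ∧
      LinearIndependent k (fun p : ℕ × ℕ => a ^ p.1 * (u * r) * b ^ p.2) := by
  classical
  by_contra hcon
  push Not at hcon
  apply hD
  refine h.pairTorsion (transc_conj ha hu) hb hbe ?_ ?_
  · exact (pairRel_of_dep (hcon 0 1 (h.one_mem_pow 0))).conj hu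
  · intro v hv j
    refine (pairRel_of_dep (hcon (e * j + 1) (b ^ j * v) ?_)).conj hu
    have h1 : v ∈ V ^ 1 := by rwa [pow_one]
    exact Quad.mul_mem (Quad.pow_mem hbe j) h1

end Pool.Agent.BQG
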